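import Pool.Agent.TH124.KE.Lev

/-! Dey's bound for the lines that have few lines below them throughout a set of abscissas. -/

set_option autoImplicit false

namespace Pool.Agent.Run7.h249.RM

open Finset Pool.Agent.TH124.KE

open Pool.Agent.H189R2.Lev (ht cr ht_cr)

open Pool.Agent.Results.MP_a08d0a_co.SmoothedLevel (Simple psi crossings psi_le)

/-- Dey's bound for the edges with exactly `k` points below -/
theorem kes_le {P : Finset (ℝ × ℝ)} (hP : GP P) (k : ℕ) :
    (#(kes P k) : ℝ) ≤ (7 + 10 * (k : ℝ) ^ (1 / 3 : ℝ)) * #P := by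
  classical
  have h1 := fun s hs => total (k := k) hP (c := 0) (fun i => i.elim0) (fun i => i.elim0) s hs
  have h2 := crs_le' hP k
  have h3 := scale' (N := #(kes P k)) (M := 0) (n := #P) (m := #P) (K := k)
    (X := #(crs (kes P k))) (fun s hs => by
      have := h1 s hs
      simp only [univ_eq_empty, biUnion_empty, sdiff_empty, Nat.cast_zero, mul_zero,
        zero_mul, zero_add] at this ⊢
      simpa using this) (h2.trans (Nat.mul_le_mul_right _ (Nat.mul_le_mul_left _ (min_le_left _ _))))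
  have h4 : ((#P : ℝ) ^ 2 * k * #P) ^ (1 / 3 : ℝ) = #P * (k : ℝ) ^ (1 / 3 : ℝ) := by
    have : (#P : ℝ) ^ 2 * k * #P = (#P : ℝ) ^ 3 * k := by ring
    rw [this, Real.mul_rpow (by positivity) (by positivity), ← Real.rpow_natCast,
      ← Real.rpow_mul (by positivity)]
    norm_num
  rw [h4] at h3
  push_cast at h3
  linarith

variable {n : ℕ} {a B : Fin n → ℝ}

/-- the lines that are above at most `k` lines throughout `I` -/
def sh (a B : Fin n → ℝ) (k : ℕ) (I : Set ℝ) : Set (Fin n) :=
  {l | {m | ∀ x ∈ I, ht a B m x < ht a B l x}.ncard ≤ k}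

theorem ncard_filter' {ι : Type*} [Fintype ι] (s : ι → Prop) [DecidablePred s] :
    {l | s l}.ncard = #(univ.filter (fun l => s l)) := by
  rw [← Set.ncard_coe_finset]
  congr 1
  ext l
  simp

open scoped Classical in
/-- crossings over `I` are crossings of the sub-arrangement of the lines in `sh a B k I` -/
theorem crossings_slab (ha : Function.Injective a) {j k : ℕ} (hjk : j ≤ k) (I : Set ℝ) :
    {q ∈ crossings a B j | cr a B q.1 q.2 ∈ I}.ncard ≤
      #(kes ((univ.filter (fun l => l ∈ sh a B k I)).image (pt a B)) j) := by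
  set S : Finset (Fin n) := univ.filter (fun l => l ∈ sh a B k I) with hS
  have hinj := pt_inj (B := B) ha
  -- lines at or below a crossing over `I` with at most `k` lines below are in `S`
  have hin : ∀ (x : ℝ) (v : ℝ), x ∈ I → {l | ht a B l x < v}.ncard ≤ k →
      ∀ l, ht a B l x ≤ v → l ∈ S := by
    intro x v hx hv l hl
    rw [hS, mem_filter]
    refine ⟨mem_univ _, ?_⟩
    refine le_trans (Set.ncard_le_ncard ?_ (Set.toFinite _)) hv
    intro m hm
    exact lt_of_lt_of_le (hm x hx) hl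
  have hbel : ∀ i j' : Fin n, cr a B i j' ∈ I →
      {l | ht a B l (cr a B i j') < ht a B i (cr a B i j')}.ncard ≤ k →
      bel (S.image (pt a B)) (sl (pt a B i) (pt a B j')) (pt a B i) =
      {l | ht a B l (cr a B i j') < ht a B i (cr a B i j')}.ncard := by
    intro i j' hI hk
    rw [ncard_filter']
    unfold bel
    rw [Finset.filter_image, Finset.card_image_of_injective _ hinj]
    congr 1
    ext l
    simp only [mem_filter, mem_univ, true_and]
    rw [hh_pt, hh_pt, ← cr_sl]
    constructor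
    · exact fun h => h.2
    · exact fun h => ⟨hin _ _ hI hk l h.le, h⟩
  have hmem : ∀ i ∈ S, pt a B i ∈ S.image (pt a B) := fun i hi => mem_image_of_mem _ hi
  rw [← Set.ncard_coe_finset]
  refine Set.ncard_le_ncard_of_injOn (fun q : Fin n × Fin n =>
    if a q.1 < a q.2 then ((pt a B q.1, pt a B q.2) : Seg) else (pt a B q.2, pt a B q.1)) ?_ ?_
    (Finset.finite_toSet _)
  · rintro ⟨i, j'⟩ ⟨⟨h1, h2, h3⟩, hI⟩
    dsimp only at h1 h2 h3 hI ⊢
    have hk : {l | ht a B l (cr a B i j') < ht a B i (cr a B i j')}.ncard ≤ k := by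
      rw [h3]; exact hjk
    have hi : i ∈ S := hin _ _ hI hk i le_rfl
    have hj : j' ∈ S := hin _ _ hI hk j' (ht_cr h2).le
    rw [mem_coe, mem_kes]
    by_cases h : a i < a j'
    · rw [if_pos h]
      exact ⟨hmem i hi, hmem j' hj, h, by rw [hbel i j' hI hk]; exact h3⟩
    · rw [if_neg h]
      have hlt : a j' < a i := lt_of_le_of_ne (not_lt.mp h) (Ne.symm h2)
      refine ⟨hmem j' hj, hmem i hi, hlt, ?_⟩
      dsimp only
      have e1 : sl (pt a B j') (pt a B i) = sl (pt a B i) (pt a B j') := sl_comm _ _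
      have e2 : bel (S.image (pt a B)) (sl (pt a B i) (pt a B j')) (pt a B j') =
          bel (S.image (pt a B)) (sl (pt a B i) (pt a B j')) (pt a B i) := by
        unfold bel
        rw [hh_sl (p := pt a B i) (q := pt a B j') (ne_of_gt hlt)]
      rw [e1, e2, hbel i j' hI hk]
      exact h3
  · rintro ⟨i, j'⟩ ⟨⟨h1, h2, -⟩, -⟩ ⟨i₂, j₂⟩ ⟨⟨h1', h2', -⟩, -⟩ heq
    dsimp only at h1 h2 h1' h2' heq
    by_cases h : a i < a j'
    · rw [if_pos h] at heq
      by_cases h' : a i₂ < a j₂
      · rw [if_pos h', Prod.ext_iff] at heq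
        exact Prod.ext (hinj heq.1) (hinj heq.2)
      · rw [if_neg h', Prod.ext_iff] at heq
        have e1 := hinj heq.1
        have e2 := hinj heq.2
        rw [e1, e2] at h1
        exact absurd h1 (not_lt.mpr h1'.le)
    · rw [if_neg h] at heq
      by_cases h' : a i₂ < a j₂
      · rw [if_pos h', Prod.ext_iff] at heq
        have e1 := hinj heq.1
        have e2 := hinj heq.2
        rw [e1, e2] at h1
        exact absurd h1 (not_lt.mpr h1'.le)
      · rw [if_neg h', Prod.ext_iff] at heq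
        exact Prod.ext (hinj heq.2) (hinj heq.1)

theorem GP.mono {P Q : Finset (ℝ × ℝ)} (hP : GP P) (h : Q ⊆ P) : GP Q :=
  ⟨fun p hp q hq => hP.inj p (h hp) q (h hq),
    fun p hp q hq r hr => hP.col p (h hp) q (h hq) r (h hr)⟩

/-- **The number of crossings over `I` with exactly `j ≤ k` lines below** -/
theorem slab_bound (ha : Function.Injective a) (hS : Simple a B) {j k : ℕ} (hjk : j ≤ k)
    (I : Set ℝ) :
    ({q ∈ crossings a B j | cr a B q.1 q.2 ∈ I}.ncard : ℝ) ≤
      (7 + 10 * (k : ℝ) ^ (1 / 3 : ℝ)) * (sh a B k I).ncard := by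
  classical
  have h1 := crossings_slab (B := B) ha hjk I
  have hgp := GP.mono (gp_pts ha hS) (Q := (univ.filter (fun l => l ∈ sh a B k I)).image (pt a B))
    (Finset.image_subset_image (Finset.subset_univ _))
  have h2 := kes_le hgp j
  rw [Finset.card_image_of_injective _ (pt_inj ha)] at h2
  have h3 : (sh a B k I).ncard = #(univ.filter (fun l => l ∈ sh a B k I)) := by
    rw [← ncard_filter']; rfl
  rw [h3]
  have h4 : (j : ℝ) ^ (1 / 3 : ℝ) ≤ (k : ℝ) ^ (1 / 3 : ℝ) :=
    Real.rpow_le_rpow (by positivity) (by exact_mod_cast hjk) (by norm_num)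
  calc ({q ∈ crossings a B j | cr a B q.1 q.2 ∈ I}.ncard : ℝ)
      ≤ #(kes ((univ.filter (fun l => l ∈ sh a B k I)).image (pt a B)) j) := by exact_mod_cast h1
    _ ≤ (7 + 10 * (j : ℝ) ^ (1 / 3 : ℝ)) * #(univ.filter (fun l => l ∈ sh a B k I)) := h2
    _ ≤ _ := by gcongr

/-- a cover of the real line by finitely many sets -/
theorem cover_bound (ha : Function.Injective a) (hS : Simple a B) {j k : ℕ} (hjk : j ≤ k)
    {s : ℕ} (I : Fin s → Set ℝ) (hI : ∀ x, ∃ t, x ∈ I t) :
    ((crossings a B j).ncard : ℝ) ≤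
      (7 + 10 * (k : ℝ) ^ (1 / 3 : ℝ)) * ∑ t, ((sh a B k (I t)).ncard : ℝ) := by
  classical
  have h1 : (crossings a B j).ncard ≤ ∑ t, {q ∈ crossings a B j | cr a B q.1 q.2 ∈ I t}.ncard := by
    have h2 : crossings a B j ⊆ ⋃ t ∈ (univ : Finset (Fin s)),
        {q ∈ crossings a B j | cr a B q.1 q.2 ∈ I t} := by
      intro q hq
      obtain ⟨t, ht⟩ := hI (cr a B q.1 q.2)
      exact Set.mem_iUnion₂.mpr ⟨t, mem_univ _, hq, ht⟩
    refine (Set.ncard_le_ncard h2 (Set.toFinite _)).trans ?_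
    exact Finset.set_ncard_biUnion_le _ _
  calc ((crossings a B j).ncard : ℝ)
      ≤ ∑ t, ({q ∈ crossings a B j | cr a B q.1 q.2 ∈ I t}.ncard : ℝ) := by exact_mod_cast h1
    _ ≤ ∑ t, (7 + 10 * (k : ℝ) ^ (1 / 3 : ℝ)) * ((sh a B k (I t)).ncard : ℝ) :=
        Finset.sum_le_sum (fun t _ => slab_bound ha hS hjk (I t))
    _ = _ := by rw [Finset.mul_sum]

end Pool.Agent.Run7.h249.RM
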