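import Pool.Agent.Run7.h249.RM.Main

/-! Independent intercepts with a common law without atoms. -/

set_option autoImplicit false

namespace Pool.Agent.Run7.h249.RM

open Finset Equiv MeasureTheory Filter
open scoped ENNReal

open Pool.Agent.H189R2.Lev (ht cr ht_cr pi_update)

open Pool.Agent.Results.MP_a08d0a_co.SmoothedLevel (Simple measurable_cr measurable_ht)

variable {n : ℕ}

theorem null_coord (μ : Measure ℝ) [IsProbabilityMeasure μ] (hμ : ∀ x, μ {x} = 0)
    (l : Fin n) (f : (Fin n → ℝ) → ℝ) (hf : Measurable f)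
    (hfl : ∀ B b, f (Function.update B l b) = f B) :
    ∀ᵐ B ∂Measure.pi (fun _ : Fin n => μ), B l ≠ f B := by
  rw [ae_iff]
  simp only [ne_eq, not_not]
  have hm : MeasurableSet {B : Fin n → ℝ | B l = f B} :=
    measurableSet_eq_fun (measurable_pi_apply l) hf
  rw [← lintegral_indicator_one hm, pi_update (fun _ : Fin n => μ) l (measurable_one.indicator hm)]
  have : ∀ B : Fin n → ℝ, ∫⁻ y, {B : Fin n → ℝ | B l = f B}.indicator
      (1 : (Fin n → ℝ) → ℝ≥0∞) (Function.update B l y) ∂μ = 0 := by
    intro B
    calc _ = ∫⁻ y, ({f B} : Set ℝ).indicator (1 : ℝ → ℝ≥0∞) y ∂μ := by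
          apply lintegral_congr
          intro y
          simp only [Set.indicator_apply, Set.mem_ofPred_eq, Function.update_self, hfl,
            Pi.one_apply, Set.mem_singleton_iff]
      _ = μ {f B} := lintegral_indicator_one (measurableSet_singleton _)
      _ = 0 := hμ _
  simp [this]

theorem ae_inj (μ : Measure ℝ) [IsProbabilityMeasure μ] (hμ : ∀ x, μ {x} = 0) :
    ∀ᵐ B ∂Measure.pi (fun _ : Fin n => μ), Function.Injective B := by
  have h1 : ∀ᵐ B ∂Measure.pi (fun _ : Fin n => μ), ∀ i j, i ≠ j → B i ≠ B j := by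
    rw [ae_all_iff]; intro i
    rw [ae_all_iff]; intro j
    by_cases hij : i = j
    · exact Eventually.of_forall (fun _ h => absurd hij h)
    · filter_upwards [null_coord μ hμ i (fun B => B j) (measurable_pi_apply j)
        (fun B b => Function.update_of_ne (Ne.symm hij) _ _)] with B hB _
      exact hB
  filter_upwards [h1] with B hB i j hij
  by_contra hne
  exact hB i j hne hij

theorem ae_simple (μ : Measure ℝ) [IsProbabilityMeasure μ] (hμ : ∀ x, μ {x} = 0) (a : Fin n → ℝ) :
    ∀ᵐ B ∂Measure.pi (fun _ : Fin n => μ), Simple a B := by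
  have h2 : ∀ᵐ B ∂Measure.pi (fun _ : Fin n => μ), ∀ i j l, i ≠ l → j ≠ l →
      B l ≠ ht a B i (cr a B i j) - a l * cr a B i j := by
    rw [ae_all_iff]; intro i
    rw [ae_all_iff]; intro j
    rw [ae_all_iff]; intro l
    by_cases hil : i = l
    · exact Eventually.of_forall (fun _ h => absurd hil h)
    by_cases hjl : j = l
    · exact Eventually.of_forall (fun _ _ h => absurd hjl h)
    filter_upwards [null_coord μ hμ l (fun B => ht a B i (cr a B i j) - a l * cr a B i j)
      ((measurable_ht a i j i).sub ((measurable_cr a i j).const_mul _)) (fun B b => by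
        unfold ht cr
        rw [Function.update_of_ne hil, Function.update_of_ne hjl])] with B hB _ _
    exact hB
  filter_upwards [ae_inj μ hμ, h2] with B hB1 hB2
  refine ⟨fun i j hij _ h => hij (hB1 h), ?_⟩
  rintro i j l hij hil hjl ⟨x, e1, e2⟩
  by_cases ha : a i = a j
  · apply hij
    apply hB1
    unfold ht at e1
    rw [ha] at e1
    linarith
  · have ha' : a i - a j ≠ 0 := sub_ne_zero.mpr ha
    have hx : x = cr a B i j := by
      unfold cr ht at *
      rw [eq_div_iff ha']
      linarith
    apply hB2 i j l hil hjl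
    rw [← hx, e2]
    unfold ht
    ring

theorem iid_exch (μ : Measure ℝ) [IsProbabilityMeasure μ] (τ : Perm (Fin n)) :
    (Measure.pi (fun _ : Fin n => μ)).map (fun b => b ∘ τ) = Measure.pi (fun _ : Fin n => μ) := by
  symm
  apply Measure.pi_eq
  intro s hs
  rw [Measure.map_apply (measurable_comp τ) (MeasurableSet.univ_pi hs)]
  have : (fun b : Fin n → ℝ => b ∘ τ) ⁻¹' (Set.univ.pi s) =
      Set.univ.pi (fun i => s (τ.symm i)) := by
    ext b
    simp only [Set.mem_preimage, Set.mem_univ_pi, Function.comp]
    constructor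
    · intro h i
      have := h (τ.symm i)
      rwa [apply_symm_apply] at this
    · intro h i
      have := h (τ i)
      rwa [symm_apply_apply] at this
  rw [this, Measure.pi_pi]
  exact Fintype.prod_equiv τ.symm _ _ (fun i => rfl)

end Pool.Agent.Run7.h249.RM
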