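import Mathlib

/-! Records of random permutations. -/

set_option autoImplicit false

namespace Pool.Agent.Run7.h249.RM

open Finset Equiv

open scoped Classical in
/-- at most `k + 1` elements of `A` have at most `k` elements of `A` below them -/
theorem few_low {n : ℕ} (f : Fin n → ℝ) (hf : Function.Injective f) (A : Finset (Fin n)) (k : ℕ) :
    #{l ∈ A | #{m ∈ A | f m < f l} ≤ k} ≤ k + 1 := by
  rw [← card_range (k + 1)]
  refine card_le_card_of_injOn (fun l => #{m ∈ A | f m < f l}) ?_ ?_
  · intro l hl
    rw [mem_coe, mem_filter] at hl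
    rw [mem_coe, mem_range]
    exact Nat.lt_succ_of_le hl.2
  · intro l hl l' hl' h
    rw [mem_coe, mem_filter] at hl hl'
    dsimp only at h
    by_contra hne
    rcases lt_or_gt_of_ne (fun h => hne (hf h) : f l ≠ f l') with h1 | h1
    · have : #{m ∈ A | f m < f l} < #{m ∈ A | f m < f l'} := by
        apply card_lt_card
        rw [ssubset_iff_of_subset]
        · exact ⟨l, by simp [hl.1, h1], by simp⟩
        · intro m hm
          rw [mem_filter] at hm ⊢
          exact ⟨hm.1, hm.2.trans h1⟩
      omega
    · have : #{m ∈ A | f m < f l'} < #{m ∈ A | f m < f l} := by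
        apply card_lt_card
        rw [ssubset_iff_of_subset]
        · exact ⟨l', by simp [hl'.1, h1], by simp⟩
        · intro m hm
          rw [mem_filter] at hm ⊢
          exact ⟨hm.1, hm.2.trans h1⟩
      omega

open scoped Classical in
/-- the permutations for which `l` is low in `A` -/
noncomputable def lowP {n : ℕ} (b : Fin n → ℝ) (A : Finset (Fin n)) (k : ℕ) (l : Fin n) :
    Finset (Perm (Fin n)) :=
  univ.filter (fun σ => #{m ∈ A | b (σ m) < b (σ l)} ≤ k)

open scoped Classical in
theorem card_lowP {n : ℕ} (b : Fin n → ℝ) (A : Finset (Fin n)) (k : ℕ) {l l' : Fin n}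
    (hl : l ∈ A) (hl' : l' ∈ A) : #(lowP b A k l) ≤ #(lowP b A k l') := by
  refine card_le_card_of_injOn (fun σ => σ * swap l l') ?_ ?_
  · intro σ hσ
    unfold lowP at hσ ⊢
    rw [mem_coe, mem_filter] at hσ ⊢
    refine ⟨mem_univ _, le_trans (le_of_eq ?_) hσ.2⟩
    refine card_bij' (fun m _ => swap l l' m) (fun m _ => swap l l' m) ?_ ?_ ?_ ?_
    · intro m hm
      rw [mem_filter] at hm ⊢
      refine ⟨?_, ?_⟩
      · rcases eq_or_ne m l with rfl | h1
        · simpa using hl'
        · rcases eq_or_ne m l' with rfl | h2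
          · simpa using hl
          · rw [swap_apply_of_ne_of_ne h1 h2]; exact hm.1
      · simpa using hm.2
    · intro m hm
      rw [mem_filter] at hm ⊢
      refine ⟨?_, ?_⟩
      · rcases eq_or_ne m l with rfl | h1
        · simpa using hl'
        · rcases eq_or_ne m l' with rfl | h2
          · simpa using hl
          · rw [swap_apply_of_ne_of_ne h1 h2]; exact hm.1
      · simpa using hm.2
    · intro m _; simp
    · intro m _; simp
  · intro σ _ τ _ h
    exact mul_right_cancel h

open scoped Classical in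
/-- the number of permutations for which `l` is low in `A` -/
theorem lowP_bound {n : ℕ} (b : Fin n → ℝ) (hb : Function.Injective b) (A : Finset (Fin n)) (k : ℕ)
    {l : Fin n} (hl : l ∈ A) : #A * #(lowP b A k l) ≤ (k + 1) * n.factorial := by
  have h1 : #A * #(lowP b A k l) ≤ ∑ l' ∈ A, #(lowP b A k l') := by
    rw [← smul_eq_mul, ← sum_const]
    exact sum_le_sum (fun l' hl' => card_lowP b A k hl hl')
  refine h1.trans ?_
  have h2 : ∑ l' ∈ A, #(lowP b A k l') =
      ∑ σ : Perm (Fin n), #{l' ∈ A | #{m ∈ A | b (σ m) < b (σ l')} ≤ k} := by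
    unfold lowP
    simp only [card_filter]
    rw [sum_comm]
  rw [h2]
  calc ∑ σ : Perm (Fin n), #{l' ∈ A | #{m ∈ A | b (σ m) < b (σ l')} ≤ k}
      ≤ ∑ _σ : Perm (Fin n), (k + 1) := by
        apply sum_le_sum
        intro σ _
        exact few_low (fun m => b (σ m)) (hb.comp σ.injective) A k
    _ = (k + 1) * n.factorial := by
        rw [sum_const, card_univ, Fintype.card_perm, Fintype.card_fin, smul_eq_mul, mul_comm]

/-- the harmonic bound -/
theorem harm {k n : ℕ} (h : k + 1 ≤ n) :
    ∑ r ∈ Icc 1 n, min 1 (((k : ℝ) + 1) / r) ≤ (k + 1) * (1 + Real.log (n / (k + 1))) := by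
  induction n, h using Nat.le_induction with
  | base =>
    have h0 : ((k + 1 : ℕ) : ℝ) / (k + 1) = 1 := by
      push_cast
      exact div_self (by positivity)
    rw [h0, Real.log_one, add_zero, mul_one]
    calc ∑ r ∈ Icc 1 (k + 1), min 1 (((k : ℝ) + 1) / r) ≤ ∑ _r ∈ Icc 1 (k + 1), (1 : ℝ) :=
          sum_le_sum (fun r _ => min_le_left _ _)
      _ = k + 1 := by simp
  | succ n hn ih =>
    rw [Finset.sum_Icc_succ_top (by omega)]
    have hn0 : (0 : ℝ) < n := by
      have : 0 < n := by omega
      exact_mod_cast this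
    have h1 : min 1 (((k : ℝ) + 1) / ((n + 1 : ℕ) : ℝ)) ≤ (k + 1) * (1 / ((n : ℝ) + 1)) := by
      refine (min_le_right _ _).trans (le_of_eq ?_)
      push_cast
      ring
    have h2 : 1 / ((n : ℝ) + 1) ≤ Real.log (((n : ℝ) + 1) / n) := by
      have := Real.one_sub_inv_le_log_of_pos (x := ((n : ℝ) + 1) / n) (by positivity)
      refine le_trans (le_of_eq ?_) this
      field_simp
      ring
    have h3 : Real.log (((n + 1 : ℕ) : ℝ) / (k + 1)) =
        Real.log ((n : ℝ) / (k + 1)) + Real.log (((n : ℝ) + 1) / n) := by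
      rw [← Real.log_mul (by positivity) (by positivity)]
      congr 1
      push_cast
      field_simp
    rw [h3]
    have hk : (0 : ℝ) ≤ (k : ℝ) + 1 := by positivity
    nlinarith [mul_le_mul_of_nonneg_left h2 hk]

open scoped Classical in
/-- the total number of low elements over all permutations -/
theorem low_total {n : ℕ} (a b : Fin n → ℝ) (ha : Function.Injective a) (hb : Function.Injective b)
    {k : ℕ} (hk : k + 1 ≤ n) :
    ∑ σ : Perm (Fin n), (#{l | #{m | a m < a l ∧ b (σ m) < b (σ l)} ≤ k} : ℝ) ≤
      n.factorial * ((k + 1) * (1 + Real.log (n / (k + 1)))) := by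
  set A : Fin n → Finset (Fin n) := fun l => {m | a m ≤ a l} with hA
  have hmem : ∀ l, l ∈ A l := fun l => by simp [hA]
  have hpos : ∀ l, 0 < #(A l) := fun l => card_pos.mpr ⟨l, hmem l⟩
  have h1 : ∀ l (σ : Perm (Fin n)), #{m | a m < a l ∧ b (σ m) < b (σ l)} =
      #{m ∈ A l | b (σ m) < b (σ l)} := by
    intro l σ
    congr 1
    ext m
    simp only [hA, mem_filter, mem_univ, true_and]
    constructor
    · rintro ⟨h1, h2⟩
      exact ⟨h1.le, h2⟩
    · rintro ⟨h1, h2⟩
      refine ⟨lt_of_le_of_ne h1 ?_, h2⟩
      intro h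
      rw [ha h] at h2
      exact lt_irrefl _ h2
  have h2 : ∑ σ : Perm (Fin n), (#{l | #{m | a m < a l ∧ b (σ m) < b (σ l)} ≤ k} : ℝ) =
      ∑ l, (#(lowP b (A l) k l) : ℝ) := by
    have : ∑ σ : Perm (Fin n), #{l | #{m | a m < a l ∧ b (σ m) < b (σ l)} ≤ k} =
      ∑ l, #(lowP b (A l) k l) := by
      unfold lowP
      simp only [h1, card_filter]
      rw [sum_comm]
    exact_mod_cast this
  rw [h2]
  have h3 : ∀ l, (#(lowP b (A l) k l) : ℝ) ≤ n.factorial * min 1 (((k : ℝ) + 1) / #(A l)) := by
    intro l
    rw [mul_min_of_nonneg _ _ (by positivity)]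
    apply le_min
    · rw [mul_one]
      have : #(lowP b (A l) k l) ≤ n.factorial := by
        have := card_le_univ (lowP b (A l) k l)
        rwa [Fintype.card_perm, Fintype.card_fin] at this
      exact_mod_cast this
    · have h4 := lowP_bound b hb (A l) k (hmem l)
      have h5 : (0 : ℝ) < #(A l) := by exact_mod_cast hpos l
      rw [mul_div_assoc', le_div_iff₀ h5]
      have h6 : (#(A l) : ℝ) * #(lowP b (A l) k l) ≤ (k + 1) * n.factorial := by exact_mod_cast h4
      linarith
  have hinj : Function.Injective (fun l => #(A l)) := by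
    intro l l' h
    dsimp only at h
    by_contra hne
    rcases lt_or_gt_of_ne (fun h => hne (ha h) : a l ≠ a l') with h1 | h1
    · have : #(A l) < #(A l') := by
        apply card_lt_card
        rw [ssubset_iff_of_subset]
        · exact ⟨l', hmem l', by simp [hA, h1]⟩
        · intro m hm
          simp only [hA, mem_filter, mem_univ, true_and] at hm ⊢
          linarith
      omega
    · have : #(A l') < #(A l) := by
        apply card_lt_card
        rw [ssubset_iff_of_subset]
        · exact ⟨l, hmem l, by simp [hA, h1]⟩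
        · intro m hm
          simp only [hA, mem_filter, mem_univ, true_and] at hm ⊢
          linarith
      omega
  calc ∑ l, (#(lowP b (A l) k l) : ℝ)
      ≤ ∑ l, (n.factorial : ℝ) * min 1 (((k : ℝ) + 1) / #(A l)) := sum_le_sum (fun l _ => h3 l)
    _ = n.factorial * ∑ l, min 1 (((k : ℝ) + 1) / #(A l)) := by rw [mul_sum]
    _ = n.factorial * ∑ r ∈ univ.image (fun l => #(A l)), min 1 (((k : ℝ) + 1) / r) := by
        rw [sum_image (fun l _ l' _ h => hinj h)]
    _ ≤ n.factorial * ∑ r ∈ Icc 1 n, min 1 (((k : ℝ) + 1) / r) := by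
        apply mul_le_mul_of_nonneg_left _ (by positivity)
        apply sum_le_sum_of_subset_of_nonneg
        · intro r hr
          obtain ⟨l, -, rfl⟩ := mem_image.mp hr
          rw [mem_Icc]
          refine ⟨hpos l, ?_⟩
          have := card_le_univ (A l)
          rwa [Fintype.card_fin] at this
        · intro r _ _
          positivity
    _ ≤ _ := by
        apply mul_le_mul_of_nonneg_left (harm hk) (by positivity)

end Pool.Agent.Run7.h249.RM
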