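import Pool.Agent.Run7.h249.RM.Det
import Pool.Agent.Run7.h249.RM.Perm

/-! Random matchings of slopes and intercepts. -/

set_option autoImplicit false

namespace Pool.Agent.Run7.h249.RM

open Finset Equiv MeasureTheory
open scoped ENNReal

open Pool.Agent.H189R2.Lev (ht cr ht_cr pi_update)

open Pool.Agent.Results.MP_a08d0a_co.SmoothedLevel (Simple psi crossings psi_le count3
  measurable_crossings)

variable {n : ℕ} {a B : Fin n → ℝ}

/-- number of crossings with exactly `k` or `k - 1` lines below -/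
noncomputable def W (a B : Fin n → ℝ) (k : ℕ) : ℕ :=
  (crossings a B k).ncard + (if k = 0 then 0 else (crossings a B (k - 1)).ncard)

open scoped Classical in
/-- lines with at most `k` lines of smaller slope and smaller intercept -/
noncomputable def L (a B : Fin n → ℝ) (k : ℕ) : ℕ := #{l | #{m | a m < a l ∧ B m < B l} ≤ k}

theorem sh_Ici (a B : Fin n → ℝ) (k : ℕ) : (sh a B k (Set.Ici 0)).ncard ≤ L a B k := by
  classical
  unfold sh L
  rw [ncard_filter']
  apply card_le_card
  intro l hl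
  rw [mem_filter] at hl ⊢
  refine ⟨mem_univ _, le_trans ?_ hl.2⟩
  rw [ncard_filter']
  apply card_le_card
  intro m hm
  rw [mem_filter] at hm ⊢
  refine ⟨mem_univ _, fun x hx => ?_⟩
  have := mul_le_mul_of_nonneg_right hm.2.1.le (show (0 : ℝ) ≤ x from hx)
  unfold ht
  linarith [hm.2.2]

theorem sh_Iic (a B : Fin n → ℝ) (k : ℕ) :
    (sh a B k (Set.Iic 0)).ncard ≤ L (fun i => -a i) B k := by
  classical
  unfold sh L
  rw [ncard_filter']
  apply card_le_card
  intro l hl
  rw [mem_filter] at hl ⊢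
  refine ⟨mem_univ _, le_trans ?_ hl.2⟩
  rw [ncard_filter']
  apply card_le_card
  intro m hm
  rw [mem_filter] at hm ⊢
  refine ⟨mem_univ _, fun x hx => ?_⟩
  have h1 : a l < a m := by linarith [hm.2.1]
  have := mul_le_mul_of_nonpos_right h1.le (show x ≤ (0 : ℝ) from hx)
  unfold ht
  linarith [hm.2.2]

theorem W_le (ha : Function.Injective a) (hS : Simple a B) (k : ℕ) :
    (W a B k : ℝ) ≤ (14 + 20 * (k : ℝ) ^ (1 / 3 : ℝ)) * (L a B k + L (fun i => -a i) B k) := by
  have h : ∀ j ≤ k, ((crossings a B j).ncard : ℝ) ≤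
      (7 + 10 * (k : ℝ) ^ (1 / 3 : ℝ)) * (L a B k + L (fun i => -a i) B k) := by
    intro j hj
    have h1 := cover_bound ha hS hj (s := 2) ![Set.Ici 0, Set.Iic 0] (fun x => by
      rcases le_total 0 x with hx | hx
      · exact ⟨0, hx⟩
      · exact ⟨1, hx⟩)
    refine h1.trans ?_
    rw [Fin.sum_univ_two]
    simp only [Matrix.cons_val_zero, Matrix.cons_val_one]
    have h2 : ((sh a B k (Set.Ici 0)).ncard : ℝ) ≤ L a B k := by exact_mod_cast sh_Ici a B k
    have h3 : ((sh a B k (Set.Iic 0)).ncard : ℝ) ≤ L (fun i => -a i) B k := by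
      exact_mod_cast sh_Iic a B k
    gcongr
  have h1 := h k le_rfl
  have h2 := h (k - 1) (by omega)
  have h3 : (0 : ℝ) ≤ (7 + 10 * (k : ℝ) ^ (1 / 3 : ℝ)) * (L a B k + L (fun i => -a i) B k) := by
    positivity
  unfold W
  push_cast
  split_ifs <;> nlinarith

theorem simple_neg (hS : Simple a B) : Simple (fun i => -a i) (fun i => -B i) := by
  have hht : ∀ i x, ht (fun i => -a i) (fun i => -B i) i x = -ht a B i x := by
    intro i x; unfold ht; ring
  refine ⟨fun i j hij h => ?_, fun i j l h1 h2 h3 => ?_⟩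
  · have := hS.1 i j hij (neg_injective h)
    exact fun h => this (neg_injective h)
  · rintro ⟨x, e1, e2⟩
    rw [hht, hht] at e1 e2
    exact hS.2 i j l h1 h2 h3 ⟨x, neg_injective e1, neg_injective e2⟩

theorem cross_neg (hS : Simple a B) {j : ℕ} {q : Fin n × Fin n} (hq : q ∈ crossings a B j) :
    j + 2 ≤ n ∧ q ∈ crossings (fun i => -a i) (fun i => -B i) (n - 2 - j) := by
  obtain ⟨h1, h2, h3⟩ := hq
  have h4 := ht_cr (B := B) h2
  have h5 := count3 hS h1.ne h4.symm
  have hcr : cr (fun i => -a i) (fun i => -B i) q.1 q.2 = cr a B q.1 q.2 := by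
    unfold cr
    rw [show -B q.2 - -B q.1 = -(B q.2 - B q.1) by ring, show -a q.1 - -a q.2 = -(a q.1 - a q.2) by ring,
      neg_div_neg_eq]
  have hht : ∀ i x, ht (fun i => -a i) (fun i => -B i) i x = -ht a B i x := by
    intro i x; unfold ht; ring
  refine ⟨by omega, h1, fun h => h2 (neg_injective h), ?_⟩
  rw [hcr]
  have : {l | ht (fun i => -a i) (fun i => -B i) l (cr a B q.1 q.2) <
      ht (fun i => -a i) (fun i => -B i) q.1 (cr a B q.1 q.2)} =
      {l | ht a B q.1 (cr a B q.1 q.2) < ht a B l (cr a B q.1 q.2)} := by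
    ext l
    simp only [Set.mem_ofPred_eq, hht, neg_lt_neg_iff]
  rw [this]
  omega

theorem W_neg (hS : Simple a B) {k : ℕ} (hk : k < n) :
    W a B k ≤ W (fun i => -a i) (fun i => -B i) (n - 1 - k) := by
  have h1 : (crossings a B k).ncard ≤ if n - 1 - k = 0 then 0 else
      (crossings (fun i => -a i) (fun i => -B i) (n - 1 - k - 1)).ncard := by
    by_cases h0 : n - 1 - k = 0
    · rw [if_pos h0]
      have : crossings a B k = ∅ := by
        ext q
        simp only [Set.mem_empty_iff_false, iff_false]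
        intro hq
        have := (cross_neg hS hq).1
        omega
      rw [this]; simp
    · rw [if_neg h0]
      refine Set.ncard_le_ncard (fun q hq => ?_) (Set.toFinite _)
      have := (cross_neg hS hq).2
      rwa [show n - 2 - k = n - 1 - k - 1 by omega] at this
  have h2 : (if k = 0 then 0 else (crossings a B (k - 1)).ncard) ≤
      (crossings (fun i => -a i) (fun i => -B i) (n - 1 - k)).ncard := by
    by_cases h0 : k = 0
    · rw [if_pos h0]; exact Nat.zero_le _
    · rw [if_neg h0]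
      refine Set.ncard_le_ncard (fun q hq => ?_) (Set.toFinite _)
      have := (cross_neg hS hq).2
      rwa [show n - 2 - (k - 1) = n - 1 - k by omega] at this
  unfold W
  omega

/-- the bound -/
noncomputable def T (n m : ℕ) : ℝ :=
  68 * ((m : ℝ) + 1) ^ (4 / 3 : ℝ) * (1 + Real.log (n / (m + 1)))

theorem T_nonneg {n m : ℕ} (h : m + 1 ≤ n) : 0 ≤ T n m := by
  unfold T
  have h1 : (1 : ℝ) ≤ n / (m + 1) := by
    rw [le_div_iff₀ (by positivity), one_mul]
    exact_mod_cast h
  have := Real.log_nonneg h1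
  positivity

theorem const_le (k : ℕ) :
    (28 + 40 * (k : ℝ) ^ (1 / 3 : ℝ)) * (k + 1) ≤ 68 * ((k : ℝ) + 1) ^ (4 / 3 : ℝ) := by
  have h0 : (0 : ℝ) ≤ k := Nat.cast_nonneg k
  have h1 : (k : ℝ) ^ (1 / 3 : ℝ) ≤ ((k : ℝ) + 1) ^ (1 / 3 : ℝ) :=
    Real.rpow_le_rpow h0 (by linarith) (by norm_num)
  have h2 : (1 : ℝ) ≤ ((k : ℝ) + 1) ^ (1 / 3 : ℝ) := Real.one_le_rpow (by linarith) (by norm_num)
  have h3 : ((k : ℝ) + 1) ^ (4 / 3 : ℝ) = ((k : ℝ) + 1) ^ (1 / 3 : ℝ) * (k + 1) := by
    rw [show (4 / 3 : ℝ) = 1 / 3 + 1 by norm_num, Real.rpow_add (by linarith), Real.rpow_one]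
  rw [h3]
  have h4 : (0 : ℝ) ≤ (k : ℝ) + 1 := by linarith
  nlinarith

open scoped Classical in
theorem perm_low (ha : Function.Injective a) (hB : Function.Injective B) {k : ℕ} (hk : k + 1 ≤ n) :
    ∑ σ ∈ univ.filter (fun σ : Perm (Fin n) => Simple a (B ∘ σ)), (W a (B ∘ σ) k : ℝ) ≤
      n.factorial * T n k := by
  have hna : Function.Injective (fun i => -a i) := fun i j h => ha (neg_injective h)
  have h1 := low_total a B ha hB hk
  have h2 := low_total (fun i => -a i) B hna hB hk
  calc ∑ σ ∈ univ.filter (fun σ : Perm (Fin n) => Simple a (B ∘ σ)), (W a (B ∘ σ) k : ℝ)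
      ≤ ∑ σ ∈ univ.filter (fun σ : Perm (Fin n) => Simple a (B ∘ σ)),
        (14 + 20 * (k : ℝ) ^ (1 / 3 : ℝ)) * (L a (B ∘ σ) k + L (fun i => -a i) (B ∘ σ) k) :=
        sum_le_sum (fun σ hσ => W_le ha (mem_filter.mp hσ).2 k)
    _ ≤ ∑ σ : Perm (Fin n),
        (14 + 20 * (k : ℝ) ^ (1 / 3 : ℝ)) * (L a (B ∘ σ) k + L (fun i => -a i) (B ∘ σ) k) :=
        sum_le_sum_of_subset_of_nonneg (filter_subset _ _) (fun σ _ _ => by positivity)
    _ = (14 + 20 * (k : ℝ) ^ (1 / 3 : ℝ)) * (∑ σ : Perm (Fin n), (L a (B ∘ σ) k : ℝ) +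
        ∑ σ : Perm (Fin n), (L (fun i => -a i) (B ∘ σ) k : ℝ)) := by
        rw [← mul_sum, sum_add_distrib]
    _ ≤ (14 + 20 * (k : ℝ) ^ (1 / 3 : ℝ)) * (n.factorial * ((k + 1) * (1 + Real.log (n / (k + 1)))) +
        n.factorial * ((k + 1) * (1 + Real.log (n / (k + 1))))) := by
        apply mul_le_mul_of_nonneg_left _ (by positivity)
        exact add_le_add h1 h2
    _ = n.factorial * (((28 + 40 * (k : ℝ) ^ (1 / 3 : ℝ)) * (k + 1)) *
        (1 + Real.log (n / (k + 1)))) := by ring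
    _ ≤ n.factorial * T n k := by
        apply mul_le_mul_of_nonneg_left _ (by positivity)
        unfold T
        apply mul_le_mul_of_nonneg_right (const_le k)
        have h1 : (1 : ℝ) ≤ n / (k + 1) := by
          rw [le_div_iff₀ (by positivity), one_mul]
          exact_mod_cast hk
        have := Real.log_nonneg h1
        linarith

open scoped Classical in
/-- **Random matchings**: the sum over all matchings of slopes and intercepts in general position -/
theorem perm_bound (ha : Function.Injective a) (hB : Function.Injective B) {k : ℕ} (hk : k < n) :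
    ∑ σ ∈ univ.filter (fun σ : Perm (Fin n) => Simple a (B ∘ σ)), (W a (B ∘ σ) k : ℝ) ≤
      n.factorial * T n (min k (n - 1 - k)) := by
  rcases le_total k (n - 1 - k) with h | h
  · rw [min_eq_left h]
    exact perm_low ha hB (by omega)
  · rw [min_eq_right h]
    have hna : Function.Injective (fun i => -a i) := fun i j h => ha (neg_injective h)
    have hnB : Function.Injective (fun i => -B i) := fun i j h => hB (neg_injective h)
    refine le_trans ?_ (perm_low hna hnB (k := n - 1 - k) (by omega))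
    calc ∑ σ ∈ univ.filter (fun σ : Perm (Fin n) => Simple a (B ∘ σ)), (W a (B ∘ σ) k : ℝ)
        ≤ ∑ σ ∈ univ.filter (fun σ : Perm (Fin n) => Simple a (B ∘ σ)),
          (W (fun i => -a i) ((fun i => -B i) ∘ σ) (n - 1 - k) : ℝ) := by
          apply sum_le_sum
          intro σ hσ
          exact_mod_cast W_neg (mem_filter.mp hσ).2 hk
      _ ≤ _ := by
          apply sum_le_sum_of_subset_of_nonneg
          · intro σ hσ
            rw [mem_filter] at hσ ⊢
            exact ⟨mem_univ _, simple_neg hσ.2⟩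
          · intro σ _ _
            positivity

/-! exchangeable intercepts -/

theorem measurable_W (a : Fin n → ℝ) (k : ℕ) :
    Measurable (fun b : Fin n → ℝ => (W a b k : ℝ≥0∞)) := by
  unfold W
  by_cases h : k = 0
  · simp only [h, if_true, add_zero]
    exact measurable_crossings a 0
  · simp only [h, if_false]
    have h1 := (measurable_crossings a k).add (measurable_crossings a (k - 1))
    push_cast
    exact h1

theorem measurable_comp (τ : Perm (Fin n)) : Measurable (fun b : Fin n → ℝ => b ∘ τ) :=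
  measurable_pi_iff.mpr (fun i => measurable_pi_apply (τ i))

/-- **Exchangeable intercepts** -/
theorem exch_bound (ha : Function.Injective a) {ν : Measure (Fin n → ℝ)} [IsProbabilityMeasure ν]
    (hex : ∀ τ : Perm (Fin n), ν.map (fun b => b ∘ τ) = ν)
    (hinj : ∀ᵐ b ∂ν, Function.Injective b) (hS : ∀ᵐ b ∂ν, Simple a b) {k : ℕ} (hk : k < n) :
    ∫⁻ b, (W a b k : ℝ≥0∞) ∂ν ≤ ENNReal.ofReal (T n (min k (n - 1 - k))) := by
  classical
  have h1 : ∀ τ : Perm (Fin n), ∫⁻ b, (W a b k : ℝ≥0∞) ∂ν = ∫⁻ b, (W a (b ∘ τ) k : ℝ≥0∞) ∂ν := by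
    intro τ
    conv_lhs => rw [← hex τ]
    exact lintegral_map (measurable_W a k) (measurable_comp τ)
  have h2 : ∀ᵐ b ∂ν, ∀ τ : Perm (Fin n), Simple a (b ∘ τ) := by
    rw [ae_all_iff]
    intro τ
    have : ∀ᵐ b ∂(ν.map (fun b => b ∘ τ)), Simple a b := by rwa [hex τ]
    exact ae_of_ae_map (measurable_comp τ).aemeasurable this
  have h3 : (n.factorial : ℝ≥0∞) * ∫⁻ b, (W a b k : ℝ≥0∞) ∂ν =
      ∫⁻ b, ∑ τ : Perm (Fin n), (W a (b ∘ τ) k : ℝ≥0∞) ∂ν := by
    have hm : ∀ τ : Perm (Fin n), Measurable (fun b : Fin n → ℝ => (W a (b ∘ τ) k : ℝ≥0∞)) :=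
      fun τ => (measurable_W a k).comp (measurable_comp τ)
    rw [lintegral_finsetSum _ (fun τ _ => hm τ)]
    rw [← sum_congr rfl (fun τ _ => h1 τ), sum_const, card_univ, Fintype.card_perm,
      Fintype.card_fin, nsmul_eq_mul]
  have hT : 0 ≤ T n (min k (n - 1 - k)) := T_nonneg (by omega)
  have h4 : ∫⁻ b, ∑ τ : Perm (Fin n), (W a (b ∘ τ) k : ℝ≥0∞) ∂ν ≤
      ∫⁻ _b, (n.factorial : ℝ≥0∞) * ENNReal.ofReal (T n (min k (n - 1 - k))) ∂ν := by
    apply lintegral_mono_ae
    filter_upwards [hinj, h2] with b hb hbS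
    have h5 := perm_bound ha hb hk
    have h6 : univ.filter (fun σ : Perm (Fin n) => Simple a (b ∘ σ)) = univ :=
      filter_true_of_mem (fun σ _ => hbS σ)
    rw [h6] at h5
    have h7 : ∑ τ : Perm (Fin n), (W a (b ∘ τ) k : ℝ≥0∞) =
        ENNReal.ofReal (∑ τ : Perm (Fin n), (W a (b ∘ τ) k : ℝ)) := by
      rw [ENNReal.ofReal_sum_of_nonneg (fun _ _ => by positivity)]
      simp
    rw [h7, ← ENNReal.ofReal_natCast, ← ENNReal.ofReal_mul (by positivity)]
    exact ENNReal.ofReal_le_ofReal h5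
  rw [lintegral_const, measure_univ, mul_one, ← h3] at h4
  have h0 : (n.factorial : ℝ≥0∞) ≠ 0 := by exact_mod_cast n.factorial_ne_zero
  have htop : (n.factorial : ℝ≥0∞) ≠ ∞ := ENNReal.natCast_ne_top _
  exact (ENNReal.mul_le_mul_iff_right h0 htop).mp h4

end Pool.Agent.Run7.h249.RM
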